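import Mathlib

/-!
# Monic polynomials with only real roots in a residue class
-/

set_option autoImplicit false
set_option linter.unusedSectionVars false

namespace Pool.Agent.K4H36.TR

open Polynomial Filter

/-- the perturbation `∏ (X - N q (i+1)) - X^n` -/
noncomputable def dl (R : Type) [CommRing R] (n q N : ℕ) : R[X] :=
  ∏ i ∈ Finset.range n, (X - C ((N * q * (i + 1) : ℕ) : R)) - X ^ n

lemma dl_map {R R' : Type} [CommRing R] [CommRing R'] (φ : R →+* R') (n q N : ℕ) :
    (dl R n q N).map φ = dl R' n q N := by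
  unfold dl
  simp [Polynomial.map_prod]

lemma prod_monic {R : Type} [CommRing R] (n q N : ℕ) :
    (∏ i ∈ Finset.range n, (X - C ((N * q * (i + 1) : ℕ) : R))).Monic :=
  monic_prod_of_monic _ _ fun _ _ => monic_X_sub_C _

lemma prod_deg {R : Type} [CommRing R] [Nontrivial R] (n q N : ℕ) :
    (∏ i ∈ Finset.range n, (X - C ((N * q * (i + 1) : ℕ) : R))).natDegree = n := by
  rw [natDegree_prod_of_monic _ _ (fun i _ => monic_X_sub_C _)]
  rw [Finset.sum_congr rfl (fun i _ => natDegree_X_sub_C _)]
  simp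

/-- the perturbation vanishes modulo `q` -/
lemma dl_coeff {R : Type} [CommRing R] (n q N : ℕ) (j : ℕ) :
    (q : R) ∣ (dl R n q N).coeff j := by
  have h : (dl R n q N).map (Ideal.Quotient.mk (Ideal.span {(q : R)})) = 0 := by
    rw [dl_map]
    unfold dl
    have hq : ((q : ℕ) : R ⧸ Ideal.span {(q : R)}) = 0 := by
      rw [← map_natCast (Ideal.Quotient.mk (Ideal.span {(q : R)}))]
      exact Ideal.Quotient.eq_zero_iff_mem.mpr (Ideal.mem_span_singleton_self _)
    have : ∀ i ∈ Finset.range n, (X - C ((N * q * (i + 1) : ℕ) : R ⧸ Ideal.span {(q : R)}))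
        = X := by
      intro i _
      rw [Nat.cast_mul, Nat.cast_mul, hq, mul_zero, zero_mul, C_0, sub_zero]
    rw [Finset.prod_congr rfl this, Finset.prod_const, Finset.card_range, sub_self]
  have h1 : ((dl R n q N).map (Ideal.Quotient.mk (Ideal.span {(q : R)}))).coeff j = 0 := by
    rw [h, coeff_zero]
  rw [coeff_map] at h1
  exact Ideal.mem_span_singleton.mp (Ideal.Quotient.eq_zero_iff_mem.mp h1)

lemma dl_eval {R : Type} [CommRing R] (n q N : ℕ) (x : R) : (q : R) ∣ (dl R n q N).eval x := by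
  rw [eval_eq_sum_range]
  exact Finset.dvd_sum fun j _ => Dvd.dvd.mul_right (dl_coeff n q N j) _

lemma dl_deval {R : Type} [CommRing R] (n q N : ℕ) (x : R) :
    (q : R) ∣ (dl R n q N).derivative.eval x := by
  rw [eval_eq_sum_range]
  refine Finset.dvd_sum fun j _ => Dvd.dvd.mul_right ?_ _
  rw [coeff_derivative]
  exact Dvd.dvd.mul_right (dl_coeff n q N _) _

/-- the sum of a monic polynomial and the perturbation -/
lemma add_dl_monic {R : Type} [CommRing R] [Nontrivial R] {t : R[X]} (ht : t.Monic) (q N : ℕ) :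
    (t + dl R t.natDegree q N).Monic := by
  have h1 : t + dl R t.natDegree q N =
      (∏ i ∈ Finset.range t.natDegree, (X - C ((N * q * (i + 1) : ℕ) : R)))
        + (t - X ^ t.natDegree) := by
    unfold dl; ring
  rw [h1]
  rcases Nat.eq_zero_or_pos t.natDegree with h0 | h0
  · have : t = 1 := ht.natDegree_eq_zero.mp h0
    rw [h0, this]
    simp
  · apply (prod_monic _ _ _).add_of_left
    rw [degree_eq_natDegree (prod_monic _ _ _).ne_zero, prod_deg]
    have h2 := degree_sub_lt_left (p := t) (q := X ^ t.natDegree) (by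
      rw [degree_X_pow, degree_eq_natDegree ht.ne_zero]) ht.ne_zero (by
      rw [ht.leadingCoeff, (monic_X_pow _).leadingCoeff])
    rwa [degree_eq_natDegree ht.ne_zero] at h2

lemma add_dl_deg {R : Type} [CommRing R] [Nontrivial R] {t : R[X]} (ht : t.Monic) (q N : ℕ) :
    (t + dl R t.natDegree q N).natDegree = t.natDegree := by
  have h1 : t + dl R t.natDegree q N =
      (∏ i ∈ Finset.range t.natDegree, (X - C ((N * q * (i + 1) : ℕ) : R)))
        + (t - X ^ t.natDegree) := by
    unfold dl; ring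
  rw [h1]
  rcases Nat.eq_zero_or_pos t.natDegree with h0 | h0
  · have : t = 1 := ht.natDegree_eq_zero.mp h0
    rw [h0, this]
    simp
  · rw [natDegree_add_eq_left_of_degree_lt, prod_deg]
    rw [degree_eq_natDegree (prod_monic _ _ _).ne_zero, prod_deg]
    have h2 := degree_sub_lt_left (p := t) (q := X ^ t.natDegree) (by
      rw [degree_X_pow, degree_eq_natDegree ht.ne_zero]) ht.ne_zero (by
      rw [ht.leadingCoeff, (monic_X_pow _).leadingCoeff])
    rwa [degree_eq_natDegree ht.ne_zero] at h2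

/-- alternation of signs at the half integers -/
lemma sign_alt {n j : ℕ} (hj : j < n) :
    (∏ i ∈ Finset.range n, (((j : ℝ) + 1 / 2) - ((i : ℝ) + 1))) *
      (∏ i ∈ Finset.range n, (((j : ℝ) + 3 / 2) - ((i : ℝ) + 1))) < 0 := by
  rw [← Finset.prod_mul_distrib]
  rw [← Finset.mul_prod_erase _ _ (Finset.mem_range.mpr hj)]
  apply mul_neg_of_neg_of_pos
  · ring_nf; norm_num
  · apply Finset.prod_pos
    intro i hi
    have hne : i ≠ j := (Finset.mem_erase.mp hi).1
    rcases lt_or_gt_of_ne hne with h | h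
    · have : (i : ℝ) + 1 ≤ j := by exact_mod_cast h
      apply mul_pos <;> linarith
    · have : (j : ℝ) + 1 ≤ i := by exact_mod_cast h
      apply mul_pos_of_neg_of_neg <;> linarith

/-- **Real roots.** -/
theorem splits_real {p : ℝ[X]} (hp : p.Monic) {q : ℕ} (hq : 0 < q) :
    ∀ᶠ N : ℕ in atTop, (p + dl ℝ p.natDegree q N).Splits := by
  set n := p.natDegree with hn
  rcases Nat.eq_zero_or_pos n with h0 | h0
  · have : p = 1 := hp.natDegree_eq_zero.mp (by rw [← hn]; exact h0)
    refine Eventually.of_forall fun N => ?_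
    rw [h0, this]
    unfold dl
    simp
  let r : ℝ[X] := p - X ^ n
  have hr : r.degree < (X ^ n : ℝ[X]).degree := by
    have h2 := degree_sub_lt_left (p := p) (q := X ^ n) (by
      rw [degree_X_pow, degree_eq_natDegree hp.ne_zero]) hp.ne_zero (by
      rw [hp.leadingCoeff, (monic_X_pow _).leadingCoeff])
    rwa [degree_eq_natDegree hp.ne_zero, ← degree_X_pow (R := ℝ)] at h2
  have h1 : ∀ y : ℝ, 0 < y → Tendsto (fun N : ℕ => ((N : ℝ) * q * y)) atTop atTop := by
    intro y hy
    have : Tendsto (fun N : ℕ => ((N : ℝ) * (q * y))) atTop atTop :=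
      tendsto_natCast_atTop_atTop.atTop_mul_const (by positivity)
    simpa [mul_assoc] using this
  have h2 : ∀ y : ℝ, 0 < y → Tendsto (fun N : ℕ =>
      (p + dl ℝ n q N).eval ((N : ℝ) * q * y) / ((N : ℝ) * q) ^ n) atTop
      (nhds (∏ i ∈ Finset.range n, (y - ((i : ℝ) + 1)))) := by
    intro y hy
    have h3 := (div_tendsto_atTop_zero_of_degree_lt r (X ^ n) hr).comp (h1 y hy)
    have h4 : Tendsto (fun N : ℕ => (∏ i ∈ Finset.range n, (y - ((i : ℝ) + 1))) + y ^ n *
        ((fun x => eval x r / eval x (X ^ n)) ∘ fun N : ℕ => ((N : ℝ) * q * y)) N) atTop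
        (nhds ((∏ i ∈ Finset.range n, (y - ((i : ℝ) + 1))) + y ^ n * 0)) :=
      tendsto_const_nhds.add (h3.const_mul _)
    rw [mul_zero, add_zero] at h4
    refine h4.congr' ?_
    filter_upwards [eventually_gt_atTop 0] with N hN
    have hN' : (0 : ℝ) < N := by exact_mod_cast hN
    have hq' : (0 : ℝ) < q := by exact_mod_cast hq
    have e1 : p + dl ℝ n q N = (∏ i ∈ Finset.range n, (X - C ((N * q * (i + 1) : ℕ) : ℝ))) + r := by
      simp only [dl, r]; ring
    rw [e1, eval_add, eval_prod]
    have e2 : ∏ i ∈ Finset.range n, eval ((N : ℝ) * q * y) (X - C ((N * q * (i + 1) : ℕ) : ℝ))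
        = ((N : ℝ) * q) ^ n * ∏ i ∈ Finset.range n, (y - ((i : ℝ) + 1)) := by
      rw [← Finset.card_range n, ← Finset.prod_const, Finset.card_range, ← Finset.prod_mul_distrib]
      refine Finset.prod_congr rfl fun i _ => ?_
      rw [eval_sub, eval_X, eval_C]
      push_cast
      ring
    rw [e2]
    simp only [Function.comp, eval_pow, eval_X]
    have hne : ((N : ℝ) * q) ^ n ≠ 0 := by positivity
    have hne' : y ^ n ≠ 0 := by positivity
    rw [mul_pow ((N : ℝ) * q) y n, eq_div_iff hne]
    field_simp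
  have h5 : ∀ᶠ N : ℕ in atTop, ∀ j ∈ Finset.range n,
      (p + dl ℝ n q N).eval ((N : ℝ) * q * (j + 1 / 2)) *
        (p + dl ℝ n q N).eval ((N : ℝ) * q * (j + 3 / 2)) < 0 := by
    rw [Finset.eventually_all]
    intro j hj
    have h6 := (h2 ((j : ℝ) + 1 / 2) (by positivity)).mul (h2 ((j : ℝ) + 3 / 2) (by positivity))
    have h7 := h6.eventually_lt_const (sign_alt (Finset.mem_range.mp hj))
    filter_upwards [h7, eventually_gt_atTop 0] with N hN hN0
    have hN' : (0 : ℝ) < N := by exact_mod_cast hN0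
    have hq' : (0 : ℝ) < q := by exact_mod_cast hq
    rw [div_mul_div_comm, div_lt_iff₀ (by positivity), zero_mul] at hN
    exact hN
  filter_upwards [h5, eventually_gt_atTop 0] with N hN hN0
  have hN' : (0 : ℝ) < N := by exact_mod_cast hN0
  have hq' : (0 : ℝ) < q := by exact_mod_cast hq
  set F := p + dl ℝ n q N with hF
  have hroot : ∀ j : ℕ, ∃ x : ℝ, j < n →
      ((N : ℝ) * q * (j + 1 / 2) < x ∧ x < (N : ℝ) * q * (j + 3 / 2) ∧ F.eval x = 0) := by
    intro j
    by_cases hj : j < n
    · have hlt : (N : ℝ) * q * (j + 1 / 2) ≤ (N : ℝ) * q * (j + 3 / 2) := by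
        apply mul_le_mul_of_nonneg_left _ (by positivity)
        linarith
      have hc : ContinuousOn (fun x => F.eval x)
          (Set.Icc ((N : ℝ) * q * (j + 1 / 2)) ((N : ℝ) * q * (j + 3 / 2))) :=
        F.continuous.continuousOn
      have h8 := hN j (Finset.mem_range.mpr hj)
      rcases mul_neg_iff.mp h8 with ⟨ha, hb⟩ | ⟨ha, hb⟩
      · obtain ⟨x, hx, hx0⟩ := intermediate_value_Ioo' hlt hc (Set.mem_Ioo.mpr ⟨hb, ha⟩)
        exact ⟨x, fun _ => ⟨hx.1, hx.2, hx0⟩⟩
      · obtain ⟨x, hx, hx0⟩ := intermediate_value_Ioo hlt hc (Set.mem_Ioo.mpr ⟨ha, hb⟩)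
        exact ⟨x, fun _ => ⟨hx.1, hx.2, hx0⟩⟩
    · exact ⟨0, fun h => absurd h hj⟩
  choose ρ hρ using hroot
  have hmon : F.Monic := add_dl_monic hp q N
  have hdeg : F.natDegree = n := add_dl_deg hp q N
  have hinj : Set.InjOn ρ (Finset.range n : Set ℕ) := by
    have key : ∀ i j : ℕ, i < j → j < n → ρ i < ρ j := by
      intro i j hij hj
      have h9 := (hρ i (hij.trans hj)).2.1
      have h10 := (hρ j hj).1
      have h11 : (N : ℝ) * q * (i + 3 / 2) ≤ (N : ℝ) * q * (j + 1 / 2) := by
        apply mul_le_mul_of_nonneg_left _ (by positivity)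
        have : (i : ℝ) + 1 ≤ j := by exact_mod_cast hij
        linarith
      linarith
    intro i hi j hj hij
    have hi' : i < n := by simpa using hi
    have hj' : j < n := by simpa using hj
    rcases lt_trichotomy i j with h | h | h
    · exact absurd hij (key i j h hj').ne
    · exact h
    · exact absurd hij (key j i h hi').ne'
  rw [splits_iff_card_roots]
  apply le_antisymm (card_roots' F)
  rw [hdeg]
  have h12 : (Finset.image ρ (Finset.range n)).card = n := by
    rw [Finset.card_image_of_injOn hinj, Finset.card_range]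
  rw [← h12]
  refine (Finset.card_le_card (t := F.roots.toFinset) ?_).trans (Multiset.toFinset_card_le _)
  intro x hx
  obtain ⟨i, hi, rfl⟩ := Finset.mem_image.mp hx
  rw [Multiset.mem_toFinset, mem_roots hmon.ne_zero]
  exact (hρ i (Finset.mem_range.mp hi)).2.2

end Pool.Agent.K4H36.TR
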