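import Mathlib
import Pool.Agent.K4H77.SL.Schmidt
import Pool.Agent.K4H36.TR.Poly

/-!
# Totally real extensions in which given polynomials split
-/

set_option autoImplicit false
set_option linter.unusedSectionVars false

namespace Pool.Agent.K4H36.TR

open NumberField Polynomial Filter Pool.Agent.K4H77.SL

/-- a totally real extension, Galois over the base, in which given polynomials split -/
theorem exists_ext_real (K L : Type) [Field K] [NumberField K] [Field L] [NumberField L]
    [Algebra K L] [IsGalois K L] [IsTotallyReal L] (A : Set (𝓞 L)[X]) (hA : A.Finite)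
    (hm : ∀ f ∈ A, f.Monic) (hr : ∀ f ∈ A, ∀ φ : 𝓞 L →+* ℝ, (f.map φ).Splits) :
    ∃ (N : Type) (_ : Field N) (_ : NumberField N) (_ : Algebra K N) (_ : Algebra L N)
      (_ : IsScalarTower K L N) (_ : IsGalois K N) (_ : IsTotallyReal N),
      ∀ f ∈ A, ∃ s : Multiset (𝓞 N), f.map (algebraMap (𝓞 L) (𝓞 N))
        = (s.map (fun a => X - C a)).prod := by
  classical
  obtain ⟨N, i1, i2, i3, i4, i5, i6, hN⟩ := exists_ext_poly K L A hA hm
  have hreal : ∀ φ : L →+* ℂ, ComplexEmbedding.IsReal φ := fun φ =>
    InfinitePlace.isReal_mk_iff.mp (IsTotallyReal.isReal _)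
  have hL : ∀ x : L, algebraMap L N x ∈ maximalRealSubfield N := by
    intro x φ
    exact RingHom.congr_fun (ComplexEmbedding.isReal_iff.mp (hreal (φ.comp (algebraMap L N)))) x
  let E : IntermediateField K N :=
    { maximalRealSubfield N with
      algebraMap_mem' := fun r => by
        rw [IsScalarTower.algebraMap_apply K L N]
        exact hL _ }
  have hE : ∀ x : N, x ∈ E ↔ ∀ φ : N →+* ℂ, star (φ x) = φ x := fun x => Iff.rfl
  have hfin : FiniteDimensional K N := Module.Finite.of_restrictScalars_finite ℚ K N
  have hEK : FiniteDimensional K E := inferInstance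
  have hNE : NumberField E := { to_charZero := inferInstance
                                to_finiteDimensional := FiniteDimensional.trans ℚ K E }
  have hnorm : Normal K E := by
    rw [IntermediateField.normal_iff_forall_map_le']
    intro σ x hx
    obtain ⟨y, hy, rfl⟩ := hx
    intro φ
    exact hy (φ.comp (σ : N →+* N))
  have hgal : IsGalois K E := ⟨⟩
  let j : L →+* E := (algebraMap L N).codRestrict E.toSubfield.toSubring hL
  let _ : Algebra L E := j.toAlgebra
  have hj : ∀ x : L, ((algebraMap L E x : E) : N) = algebraMap L N x := fun x => rfl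
  have ht : IsScalarTower K L E := IsScalarTower.of_algebraMap_eq fun x => by
    apply Subtype.ext
    rw [hj]
    exact IsScalarTower.algebraMap_apply K L N x
  have htr : IsTotallyReal E := by
    have : IsTotallyReal (maximalRealSubfield N) := inferInstance
    exact this
  refine ⟨E, inferInstance, hNE, inferInstance, inferInstance, ht, hgal, htr, fun f hf => ?_⟩
  obtain ⟨s, hs⟩ := hN f hf
  have hroot : ∀ a ∈ s, ∃ b : 𝓞 E, ((b : E) : N) = (a : N) := by
    intro a ha
    have h1 : (a : N) ∈ E := by
      intro φ
      let ψ : 𝓞 L →+* ℝ := ((hreal (φ.comp (algebraMap L N))).embedding).comp (algebraMap (𝓞 L) L)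
      have hψ : ∀ x : 𝓞 L, ((ψ x : ℝ) : ℂ) = φ (algebraMap L N (x : L)) := fun x =>
        ComplexEmbedding.IsReal.coe_embedding_apply (hreal (φ.comp (algebraMap L N))) (x : L)
      have h2 := hr f hf ψ
      have h3 := h2.eq_prod_roots_of_monic ((hm f hf).map ψ)
      have h4 : (f.map ψ).map Complex.ofRealHom
          = (f.map (algebraMap (𝓞 L) (𝓞 N))).map (φ.comp (algebraMap (𝓞 N) N)) := by
        rw [Polynomial.map_map, Polynomial.map_map]
        congr 1
        apply RingHom.ext
        intro x
        exact hψ x
      have h5 : ((f.map ψ).map Complex.ofRealHom).eval (φ (a : N)) = 0 := by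
        rw [h4, hs, Polynomial.map_multiset_prod, Multiset.map_map, eval_multiset_prod,
          Multiset.map_map]
        apply Multiset.prod_eq_zero
        rw [Multiset.mem_map]
        exact ⟨a, ha, by simp⟩
      rw [h3, Polynomial.map_multiset_prod, Multiset.map_map, eval_multiset_prod,
        Multiset.map_map] at h5
      obtain ⟨r, -, hr0⟩ := Multiset.mem_map.mp (Multiset.prod_eq_zero_iff.mp h5)
      have h6 : φ (a : N) = ((r : ℝ) : ℂ) := by
        simpa [sub_eq_zero] using hr0
      rw [h6]
      simp
    have h2 : IsIntegral ℤ (⟨(a : N), h1⟩ : E) := by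
      have h3 : Function.Injective (algebraMap E N) := (algebraMap E N).injective
      exact (isIntegral_algebraMap_iff (R := ℤ) (A := E) (B := N) h3).mp
        (RingOfIntegers.isIntegral_coe a)
    exact ⟨⟨⟨(a : N), h1⟩, h2⟩, rfl⟩
  choose! b hb using hroot
  refine ⟨s.map b, ?_⟩
  have hinj : Function.Injective (algebraMap (𝓞 E) (𝓞 N)) := by
    intro x y hxy
    have h1 := congrArg (fun z : 𝓞 N => (z : N)) hxy
    apply RingOfIntegers.ext
    exact (algebraMap E N).injective h1
  apply Polynomial.map_injective _ hinj
  rw [Polynomial.map_map]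
  have hjj : (algebraMap (𝓞 E) (𝓞 N)).comp (algebraMap (𝓞 L) (𝓞 E)) = algebraMap (𝓞 L) (𝓞 N) := by
    apply RingHom.ext
    intro x
    rfl
  rw [hjj, hs, Polynomial.map_multiset_prod, Multiset.map_map, Multiset.map_map]
  congr 1
  refine Multiset.map_congr rfl fun a ha => ?_
  have h6 : algebraMap (𝓞 E) (𝓞 N) (b a) = a := RingOfIntegers.ext (hb a ha)
  simp [h6]

/-- perturbations of monic polynomials over a number field are totally real -/
theorem exists_real_dl {L : Type} [Field L] [NumberField L] {t : (𝓞 L)[X]} (ht : t.Monic) {q : ℕ}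
    (hq : 0 < q) : ∃ N : ℕ, ∀ φ : 𝓞 L →+* ℝ,
      ((t + dl (𝓞 L) t.natDegree q N).map φ).Splits := by
  have hfin : Finite (𝓞 L →+* ℝ) := by
    have : Finite (L →+* ℝ) := by
      have : Function.Injective (fun φ : L →+* ℝ => Complex.ofRealHom.comp φ) := by
        intro a b hab
        apply RingHom.ext
        intro x
        have := RingHom.congr_fun hab x
        exact Complex.ofReal_injective this
      exact Finite.of_injective _ this
    let e : (𝓞 L →+* ℝ) → (L →+* ℝ) := fun φ => IsFractionRing.lift (A := 𝓞 L) (K := L) (g := φ) (by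
      rw [injective_iff_map_eq_zero]
      intro x hx
      by_contra h0
      obtain ⟨y, hy0, hy⟩ : ∃ y : ℤ, y ≠ 0 ∧ x ∣ (y : 𝓞 L) := by
        have h1 := Ideal.absNorm_mem (Ideal.span {x})
        refine ⟨(Ideal.absNorm (Ideal.span {x}) : ℤ), ?_, ?_⟩
        · rw [Ne, Nat.cast_eq_zero, Ideal.absNorm_eq_zero_iff, Ideal.span_singleton_eq_bot]
          exact h0
        · exact_mod_cast Ideal.mem_span_singleton.mp h1
      obtain ⟨z, hz⟩ := hy
      have h2 := congrArg φ hz
      rw [map_mul, hx, zero_mul, map_intCast] at h2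
      exact hy0 (by exact_mod_cast h2))
    have he : Function.Injective e := by
      intro a b hab
      apply RingHom.ext
      intro x
      have := RingHom.congr_fun hab (algebraMap (𝓞 L) L x)
      simpa [e] using this
    exact Finite.of_injective _ he
  have h1 : ∀ᶠ N : ℕ in atTop, ∀ φ : 𝓞 L →+* ℝ,
      ((t + dl (𝓞 L) t.natDegree q N).map φ).Splits := by
    rw [eventually_all]
    intro φ
    have h2 := splits_real (ht.map φ) hq
    rw [ht.natDegree_map] at h2
    filter_upwards [h2] with N hN
    rwa [Polynomial.map_add, dl_map]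
  exact h1.exists

end Pool.Agent.K4H36.TR
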