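import Mathlib
import Pool.Agent.K4H77.SL.Key2

/-!
# The contradiction of F. K. Schmidt's theorem, for polynomials given up to congruence
-/

set_option autoImplicit false
set_option linter.unusedSectionVars false

namespace Pool.Agent.K4H36.TR

open NumberField Polynomial Pool.Agent.K4H77.SL

section key

variable {K L N : Type} [Field K] [NumberField K] [Field L] [NumberField L] [Algebra K L]
  [Field N] [NumberField N] [Algebra K N] [Algebra L N] [IsScalarTower K L N]

/-- the key contradiction: `f` is invariant under `g`, has `1` as a simple root modulo `w'` and is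
congruent to `∏ (X - g^i θ)` modulo `w^k` -/
theorem key_false' {g : L ≃ₐ[K] L} {n : ℕ} {θ : 𝓞 L} {f : (𝓞 L)[X]}
    (hfg : f.map (gi g) = f) {w w' : Ideal (𝓞 L)} (hw : w.IsMaximal) {k : ℕ}
    (hf1 : f.eval 1 ∈ w') (hf2 : f.derivative.eval 1 ∉ w')
    (hf3 : f.map (Ideal.Quotient.mk (w ^ k)) = (pA g n θ).map (Ideal.Quotient.mk (w ^ k)))
    (hd : ∏ i ∈ Finset.range n, gi (g ^ i) (gi g θ - θ) ∉ w ^ k)
    {σ : N ≃ₐ[K] N} (hσ : ∀ x : L, σ (algebraMap L N x) = algebraMap L N (g x))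
    {Q Q' : Ideal (𝓞 N)} (hQ : Q.IsMaximal) (hQ' : Q'.IsMaximal)
    (hQw : Q.comap (algebraMap (𝓞 L) (𝓞 N)) = w)
    (hQw' : Q'.comap (algebraMap (𝓞 L) (𝓞 N)) = w')
    (hσQ : σ ∈ decomp K Q) (hσQ' : σ ∈ decomp K Q')
    {s : Multiset (𝓞 N)} (hs : f.map (algebraMap (𝓞 L) (𝓞 N))
      = (s.map (fun a => X - C a)).prod) : False := by
  classical
  let φ : 𝓞 L →+* 𝓞 N := algebraMap (𝓞 L) (𝓞 N)
  have hφ : ∀ x : 𝓞 L, ((φ x : 𝓞 N) : N) = algebraMap L N (x : L) := fun x => rfl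
  have hσφ : ∀ x : 𝓞 L, gi σ (φ x) = φ (gi g x) := by
    intro x
    apply RingOfIntegers.ext
    rw [gi_coe, hφ, hφ, gi_coe, hσ]
  have hσi : ∀ (i : ℕ) (x : 𝓞 L), gi (σ ^ i) (φ x) = φ (gi (g ^ i) x) := by
    intro i
    induction i with
    | zero => intro x; rw [pow_zero, pow_zero, gi_one, gi_one]
    | succ i ih => intro x; rw [pow_succ', gi_mul, ih, hσφ, pow_succ', gi_mul]
  let F : (𝓞 N)[X] := f.map φ
  have hF : F = (s.map (fun a => X - C a)).prod := hs
  have hFσ : F.map (gi σ) = F := by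
    change (f.map φ).map (gi σ) = f.map φ
    rw [Polynomial.map_map]
    have h1 : (gi σ).comp φ = φ.comp (gi g) := RingHom.ext hσφ
    rw [h1, ← Polynomial.map_map, hfg]
  have hF1 : F.eval 1 ∈ Q' := by
    have h1 : F.eval 1 = φ (f.eval 1) := by
      change (f.map φ).eval 1 = _
      rw [eval_map, ← map_one φ, Polynomial.eval₂_hom]
    rw [h1]
    rw [← hQw'] at hf1
    exact hf1
  have hF2 : F.derivative.eval 1 ∉ Q' := by
    have h1 : F.derivative.eval 1 = φ (f.derivative.eval 1) := by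
      change (f.map φ).derivative.eval 1 = _
      rw [derivative_map, eval_map, ← map_one φ, Polynomial.eval₂_hom]
    rw [h1]
    rw [← hQw'] at hf2
    exact hf2
  -- a root congruent to `1`
  obtain ⟨ρ, hρs, hρ1⟩ : ∃ ρ ∈ s, 1 - ρ ∈ Q' := by
    have h1 := hF1
    have h2 : F.eval 1 = (s.map (fun a => 1 - a)).prod := by
      rw [hF, eval_multiset_prod, Multiset.map_map]
      congr 1
      refine Multiset.map_congr rfl fun a _ => ?_
      simp
    rw [h2] at h1
    obtain ⟨y, hy, hy1⟩ := (hQ'.isPrime.multiset_prod_mem_iff_exists_mem _).mp h1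
    obtain ⟨a, ha, rfl⟩ := Multiset.mem_map.mp hy
    exact ⟨a, ha, hy1⟩
  have hρ0 : F.eval ρ = 0 := by
    rw [hF, eval_multiset_prod, Multiset.map_map]
    apply Multiset.prod_eq_zero
    rw [Multiset.mem_map]
    exact ⟨ρ, hρs, by simp⟩
  have hσρ0 : F.eval (gi σ ρ) = 0 := by
    rw [← hFσ, Polynomial.eval_map, Polynomial.eval₂_hom, hρ0, map_zero]
  have hσρ1 : 1 - gi σ ρ ∈ Q' := by
    have h1 := (hσQ' (1 - ρ)).mpr hρ1
    rwa [map_sub, map_one] at h1
  have hfix : gi σ ρ = ρ := by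
    by_contra hne
    obtain ⟨G, hG⟩ := dvd_iff_isRoot.mpr (hρ0 : F.IsRoot ρ)
    have h1 : G.eval (gi σ ρ) = 0 := by
      have h2 : F.eval (gi σ ρ) = (gi σ ρ - ρ) * G.eval (gi σ ρ) := by
        rw [hG]; simp
      rw [hσρ0] at h2
      exact (mul_eq_zero.mp h2.symm).resolve_left (sub_ne_zero.mpr hne)
    have h3 : F.derivative.eval 1 = G.eval 1 + (1 - ρ) * G.derivative.eval 1 := by
      rw [hG, derivative_mul]
      simp
    have h4 : G.eval 1 ∈ Q' := by
      obtain ⟨c, hc⟩ := sub_dvd_eval_sub 1 (gi σ ρ) G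
      rw [h1, sub_zero] at hc
      rw [hc]
      exact Q'.mul_mem_right _ hσρ1
    have h5 : F.derivative.eval 1 ∈ Q' := by
      rw [h3]
      exact Q'.add_mem h4 (Q'.mul_mem_right _ hρ1)
    exact hF2 h5
  have hfixi : ∀ i : ℕ, gi (σ ^ i) ρ = ρ := by
    intro i
    induction i with
    | zero => rw [pow_zero, gi_one]
    | succ i ih => rw [pow_succ', gi_mul, ih, hfix]
  -- the valuation at `Q`
  let v := (hos Q hQ).intValuation
  have hvi : ∀ (i : ℕ) (x : 𝓞 N), v (gi (σ ^ i) x) = v x := fun i x =>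
    val_inv hQ (decomp_pow hσQ i) x
  let u := hos w hw
  have hlo : (hos Q hQ).asIdeal.LiesOver u.asIdeal := ⟨by
    change w = Ideal.under (𝓞 L) Q
    rw [Ideal.under_def]
    exact hQw.symm⟩
  set e := u.asIdeal.ramificationIdx' (hos Q hQ).asIdeal with he
  have h3 : e ≠ 0 :=
    Ideal.IsDedekindDomain.ramificationIdx'_ne_zero_of_liesOver _ u.ne_bot
  have huv : ∀ x : 𝓞 L, u.intValuation x ^ e = v (φ x) := fun x =>
    IsDedekindDomain.HeightOneSpectrum.intValuation_liesOver u (hos Q hQ) x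
  have hcoef : ∀ j : ℕ, v ((F - (pA g n θ).map φ).coeff j) ≤ WithZero.exp (-(k : ℤ)) ^ e := by
    intro j
    have h1 : (F - (pA g n θ).map φ).coeff j = φ ((f - pA g n θ).coeff j) := by
      change (f.map φ - (pA g n θ).map φ).coeff j = _
      rw [← Polynomial.map_sub, coeff_map]
    have h2 : (f - pA g n θ).coeff j ∈ w ^ k := by
      rw [← Ideal.Quotient.eq_zero_iff_mem, ← coeff_map, Polynomial.map_sub, hf3, sub_self,
        coeff_zero]
    rw [h1, ← huv]
    exact pow_le_pow_left' ((u.intValuation_le_pow_iff_mem _ _).mpr h2) e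
  have hAe : ((pA g n θ).map φ).eval ρ = ∏ i ∈ Finset.range n, (ρ - φ (gi (g ^ i) θ)) := by
    simp only [pA, Polynomial.map_sub, Polynomial.map_X, Polynomial.map_C, Polynomial.map_prod,
      eval_sub, eval_X, eval_C, Polynomial.eval_prod]
  have e1 : v (∏ i ∈ Finset.range n, (ρ - φ (gi (g ^ i) θ))) = v (ρ - φ θ) ^ n := by
    rw [map_prod]
    rw [Finset.prod_congr rfl (g := fun _ => v (ρ - φ θ)), Finset.prod_const, Finset.card_range]
    intro i _
    have h : ρ - φ (gi (g ^ i) θ) = gi (σ ^ i) (ρ - φ θ) := by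
      rw [map_sub (gi (σ ^ i)), hfixi, hσi]
    rw [h, hvi]
  have e2 : v (∏ i ∈ Finset.range n, (ρ - φ (gi (g ^ i) θ))) ≤ WithZero.exp (-(k : ℤ)) ^ e := by
    have h1 : ∏ i ∈ Finset.range n, (ρ - φ (gi (g ^ i) θ))
        = -((F - (pA g n θ).map φ).eval ρ) := by
      rw [eval_sub, hρ0, hAe]; ring
    rw [h1, Valuation.map_neg, eval_eq_sum_range]
    refine Valuation.map_sum_le _ fun j _ => ?_
    rw [map_mul]
    exact mul_le_of_le_of_le_one (hcoef j)
      (IsDedekindDomain.HeightOneSpectrum.intValuation_le_one _ _)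
  have e3 : v (gi σ (φ θ) - φ θ) ≤ v (ρ - φ θ) := by
    have h1 : gi σ (φ θ) - φ θ = (ρ - φ θ) - gi (σ ^ 1) (ρ - φ θ) := by
      rw [pow_one, map_sub (gi σ), hfix]; ring
    rw [h1]
    refine (Valuation.map_sub _ _ _).trans (max_le le_rfl ?_)
    exact (hvi 1 _).le
  have e4 : v (φ (∏ i ∈ Finset.range n, gi (g ^ i) (gi g θ - θ))) = v (gi σ (φ θ) - φ θ) ^ n := by
    rw [map_prod, map_prod]
    rw [Finset.prod_congr rfl (g := fun _ => v (gi σ (φ θ) - φ θ)), Finset.prod_const,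
      Finset.card_range]
    intro i _
    rw [← hσi, hvi, map_sub φ, ← hσφ]
  have e5 : v (φ (∏ i ∈ Finset.range n, gi (g ^ i) (gi g θ - θ))) ≤ WithZero.exp (-(k : ℤ)) ^ e := by
    rw [e4]
    rw [e1] at e2
    exact (pow_le_pow_left' e3 n).trans e2
  -- compare at `w`
  rw [← huv] at e5
  have h4 := (pow_le_pow_iff_left₀ zero_le zero_le h3).mp e5
  exact hd ((u.intValuation_le_pow_iff_mem _ _).mp h4)

end key

end Pool.Agent.K4H36.TR
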