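import Mathlib
import Pool.Agent.K4H36.TR.Ext
import Pool.Agent.K4H36.TR.Key

/-!
# The totally real extension of Schmidt
-/

set_option autoImplicit false
set_option linter.unusedSectionVars false

namespace Pool.Agent.K4H36.TR

open NumberField Polynomial Pool.Agent.K4H77.SL

lemma pf_deg {K L : Type} [Field K] [Field L] [NumberField L] [Algebra K L]
    (g : L ≃ₐ[K] L) {n : ℕ} (hn : 0 < n) (θ ε : 𝓞 L) : (pf g n θ ε).natDegree = n := by
  have hA := pA_monic g n θ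
  have hAd := pA_deg g n θ
  have hc : (pf g n θ ε).coeff n = 1 := by
    have h1 : (pA g n θ).coeff n = 1 := by
      have := hA.coeff_natDegree
      rwa [hAd] at this
    rw [pf, coeff_add, coeff_C_mul, coeff_C_mul, h1, coeff_sub, coeff_X_pow, coeff_X_pow, if_pos rfl,
      if_neg (by omega)]
    ring
  have hd : (pf g n θ ε).natDegree ≤ n := by
    refine (natDegree_add_le _ _).trans (max_le ?_ ?_)
    · exact (natDegree_C_mul_le _ _).trans hAd.le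
    · refine (natDegree_C_mul_le _ _).trans ((natDegree_sub_le _ _).trans (max_le ?_ ?_))
      · exact natDegree_X_pow_le n
      · exact (natDegree_X_pow_le (n - 1)).trans (Nat.sub_le _ _)
  apply le_antisymm hd
  exact le_natDegree_of_ne_zero (by rw [hc]; exact one_ne_zero)

/-- **The theorem of F. K. Schmidt at finite level, with totally real fields.** -/
theorem exists_schmidt_real (K L : Type) [Field K] [NumberField K] [Field L] [NumberField L]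
    [Algebra K L] [IsGalois K L] [IsTotallyReal L] {m : ℕ} (hm : m ≠ 0) :
    ∃ (N : Type) (_ : Field N) (_ : NumberField N) (_ : Algebra K N) (_ : Algebra L N)
      (_ : IsScalarTower K L N) (_ : IsGalois K N) (_ : IsTotallyReal N),
      ∀ (σ : N ≃ₐ[K] N) (Q Q' : Ideal (𝓞 N)), Q.IsMaximal → Q'.IsMaximal → (m : 𝓞 N) ∈ Q →
        (m : 𝓞 N) ∈ Q' → σ ∈ decomp K Q → σ ∈ decomp K Q' →
        AlgEquiv.restrictNormalHom L σ ≠ 1 →
        Q.comap (algebraMap (𝓞 L) (𝓞 N)) = Q'.comap (algebraMap (𝓞 L) (𝓞 N)) := by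
  classical
  have hfin : FiniteDimensional K L := Module.Finite.of_restrictScalars_finite ℚ K L
  have hθ : ∀ g : L ≃ₐ[K] L, ∃ θ : 𝓞 L, g ≠ 1 → gi g θ ≠ θ := by
    intro g
    by_cases hg : g = 1
    · exact ⟨0, fun h => absurd hg h⟩
    · obtain ⟨θ, h⟩ := exists_moved hg
      exact ⟨θ, fun _ => h⟩
  choose θ hθ using hθ
  let d : (L ≃ₐ[K] L) → 𝓞 L := fun g =>
    ∏ i ∈ Finset.range (orderOf g), gi (g ^ i) (gi g (θ g) - θ g)
  have hgi : ∀ (g : L ≃ₐ[K] L) (x : 𝓞 L), gi g x = 0 → x = 0 := by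
    intro g x hx
    have h1 := gi_mul g⁻¹ g x
    rw [inv_mul_cancel, gi_one, hx, map_zero] at h1
    exact h1
  have hd : ∀ g, g ≠ 1 → d g ≠ 0 := by
    intro g hg
    rw [Finset.prod_ne_zero_iff]
    intro i _ h
    exact hθ g hg (sub_eq_zero.mp (hgi _ _ h))
  let T : Set (Ideal (𝓞 L)) := {w | w.IsMaximal ∧ (m : 𝓞 L) ∈ w}
  have hT : T.Finite := finite_max L hm
  have hk : ∀ (g : L ≃ₐ[K] L) (w : Ideal (𝓞 L)), ∃ k : ℕ, g ≠ 1 → w.IsMaximal → d g ∉ w ^ k := by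
    intro g w
    by_cases hg : g ≠ 1
    · by_cases hw : w.IsMaximal
      · obtain ⟨k, hk⟩ := exists_power hw (hd g hg)
        exact ⟨k, fun _ _ => hk⟩
      · exact ⟨0, fun _ h => absurd h hw⟩
    · exact ⟨0, fun h => absurd h hg⟩
  choose k hk using hk
  have hε : ∀ (g : L ≃ₐ[K] L) (w w' : Ideal (𝓞 L)), ∃ ε : 𝓞 L, w.IsMaximal → w'.IsMaximal →
      w ≠ w' → g ∈ decomp K w → (gi g ε = ε ∧ ε ∈ w' ∧ 1 - ε ∈ w ^ (k g w)) := by
    intro g w w'
    by_cases h : w.IsMaximal ∧ w'.IsMaximal ∧ w ≠ w' ∧ g ∈ decomp K w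
    · obtain ⟨h1, h2, h3, h4⟩ := h
      obtain ⟨ε, hε⟩ := exists_eps g (pow_orderOf_eq_one g) (orderOf_pos g) h1 h2 h3 h4 (k g w)
      exact ⟨ε, fun _ _ _ _ => hε⟩
    · exact ⟨0, fun h1 h2 h3 h4 => absurd ⟨h1, h2, h3, h4⟩ h⟩
  choose ε hε using hε
  have hN : ∀ (g : L ≃ₐ[K] L) (w w' : Ideal (𝓞 L)), ∃ N : ℕ, ∀ φ : 𝓞 L →+* ℝ,
      ((pf g (orderOf g) (θ g) (ε g w w')
        + dl (𝓞 L) (orderOf g) (m ^ (k g w + 1)) N).map φ).Splits := by
    intro g w w'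
    obtain ⟨N, hN⟩ := exists_real_dl (pf_monic g (orderOf_pos g) (θ g) (ε g w w'))
      (q := m ^ (k g w + 1)) (by positivity)
    rw [pf_deg g (orderOf_pos g)] at hN
    exact ⟨N, hN⟩
  choose N hN using hN
  let ff : (L ≃ₐ[K] L) → Ideal (𝓞 L) → Ideal (𝓞 L) → (𝓞 L)[X] := fun g w w' =>
    pf g (orderOf g) (θ g) (ε g w w') + dl (𝓞 L) (orderOf g) (m ^ (k g w + 1)) (N g w w')
  let Z : Set ((L ≃ₐ[K] L) × Ideal (𝓞 L) × Ideal (𝓞 L)) := Set.univ ×ˢ T ×ˢ T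
  have hZ : Z.Finite := Set.finite_univ.prod (hT.prod hT)
  let A : Set (𝓞 L)[X] := (fun z : (L ≃ₐ[K] L) × Ideal (𝓞 L) × Ideal (𝓞 L) =>
    ff z.1 z.2.1 z.2.2) '' Z
  obtain ⟨M, i1, i2, i3, i4, i5, i6, i7, hM⟩ := exists_ext_real K L A (hZ.image _) (by
    rintro f ⟨z, -, rfl⟩
    have h1 := add_dl_monic (pf_monic z.1 (orderOf_pos z.1) (θ z.1) (ε z.1 z.2.1 z.2.2))
      (m ^ (k z.1 z.2.1 + 1)) (N z.1 z.2.1 z.2.2)
    rw [pf_deg z.1 (orderOf_pos z.1)] at h1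
    exact h1) (by
    rintro f ⟨z, -, rfl⟩
    exact hN _ _ _)
  refine ⟨M, i1, i2, i3, i4, i5, i6, i7, ?_⟩
  intro σ Q Q' hQ hQ' hmQ hmQ' hσQ hσQ' hne
  by_contra hww
  let g : L ≃ₐ[K] L := AlgEquiv.restrictNormalHom L σ
  have hσ : ∀ x : L, σ (algebraMap L M x) = algebraMap L M (g x) := fun x =>
    (Pool.Agent.K4H74.ST.res_apply σ x).symm
  have hcm : ∀ P : Ideal (𝓞 M), P.IsMaximal → (P.comap (algebraMap (𝓞 L) (𝓞 M))).IsMaximal := by
    intro P hP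
    exact Ideal.isMaximal_comap_of_isIntegral_of_isMaximal P
  have hmm : ∀ P : Ideal (𝓞 M), (m : 𝓞 M) ∈ P → (m : 𝓞 L) ∈ P.comap (algebraMap (𝓞 L) (𝓞 M)) := by
    intro P hP
    rw [Ideal.mem_comap, map_natCast]
    exact hP
  have hdec : ∀ P : Ideal (𝓞 M), σ ∈ decomp K P →
      g ∈ decomp K (P.comap (algebraMap (𝓞 L) (𝓞 M))) := by
    intro P hP x
    have : algebraMap (𝓞 L) (𝓞 M) (gi g x) = gi σ (algebraMap (𝓞 L) (𝓞 M) x) := by
      apply RingOfIntegers.ext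
      exact (hσ x).symm
    rw [Ideal.mem_comap, Ideal.mem_comap, this]
    exact hP _
  let w := Q.comap (algebraMap (𝓞 L) (𝓞 M))
  let w' := Q'.comap (algebraMap (𝓞 L) (𝓞 M))
  obtain ⟨e1, e2, e3⟩ := hε g w w' (hcm Q hQ) (hcm Q' hQ') hww (hdec Q hσQ)
  obtain ⟨s, hs⟩ := hM _ ⟨(g, w, w'), ⟨Set.mem_univ _, ⟨hcm Q hQ, hmm Q hmQ⟩,
    ⟨hcm Q' hQ', hmm Q' hmQ'⟩⟩, rfl⟩
  have hn2 : 2 ≤ orderOf g := by
    have h1 := orderOf_pos g
    have h2 : orderOf g ≠ 1 := fun h => hne (orderOf_eq_one_iff.mp h)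
    omega
  have hqw' : ((m ^ (k g w + 1) : ℕ) : 𝓞 L) ∈ w' := by
    rw [Nat.cast_pow, pow_succ]
    exact Ideal.mul_mem_left _ _ (hmm Q' hmQ')
  have hqw : ((m ^ (k g w + 1) : ℕ) : 𝓞 L) ∈ w ^ (k g w) := by
    rw [Nat.cast_pow, pow_succ]
    exact Ideal.mul_mem_right _ _ (Ideal.pow_mem_pow (hmm Q hmQ) _)
  refine key_false' (f := ff g w w') (θ := θ g) (n := orderOf g) (k := k g w) ?_ (hcm Q hQ) ?_ ?_ ?_
    (hk g w hne (hcm Q hQ)) hσ hQ hQ' rfl rfl hσQ hσQ' hs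
  · rw [Polynomial.map_add, pf_inv g (pow_orderOf_eq_one g) (θ g) e1, dl_map]
  · rw [eval_add]
    refine Ideal.add_mem _ ?_ (Ideal.mem_of_dvd _ (dl_eval _ _ _ _) hqw')
    simp only [pf, eval_add, eval_mul, eval_C, eval_sub, eval_pow, eval_X, one_pow, sub_self,
      mul_zero, add_zero]
    exact Ideal.mul_mem_right _ _ e2
  · intro h5
    rw [derivative_add, eval_add] at h5
    have h6 := Ideal.mem_of_dvd _ (dl_deval (R := 𝓞 L) (orderOf g) (m ^ (k g w + 1))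
      (N g w w') 1) hqw'
    have h7 := Ideal.sub_mem _ h5 h6
    rw [add_sub_cancel_right] at h7
    rw [pf, derivative_add, derivative_C_mul, derivative_C_mul, derivative_sub, derivative_X_pow,
      derivative_X_pow] at h7
    simp only [eval_add, eval_mul, eval_C, eval_sub, eval_pow, eval_X, one_pow, mul_one] at h7
    have h8 : ((orderOf g - 1 : ℕ) : 𝓞 L) = (orderOf g : 𝓞 L) - 1 := by
      rw [Nat.cast_sub (by omega), Nat.cast_one]
    rw [h8] at h7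
    have h9 := Ideal.sub_mem _ h7 (Ideal.sub_mem _
      (Ideal.mul_mem_right ((derivative (pA g (orderOf g) (θ g))).eval 1) _ e2) e2)
    rw [show ε g w w' * eval 1 (derivative (pA g (orderOf g) (θ g)))
      + (1 - ε g w w') * ((orderOf g : 𝓞 L) - ((orderOf g : 𝓞 L) - 1))
      - (ε g w w' * eval 1 (derivative (pA g (orderOf g) (θ g))) - ε g w w') = 1 by ring] at h9
    exact (hcm Q' hQ').ne_top ((Ideal.eq_top_iff_one _).mpr h9)
  · rw [Polynomial.map_add]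
    have h5 : (dl (𝓞 L) (orderOf g) (m ^ (k g w + 1)) (N g w w')).map
        (Ideal.Quotient.mk (w ^ (k g w))) = 0 := by
      ext j
      rw [coeff_map, coeff_zero]
      exact Ideal.Quotient.eq_zero_iff_mem.mpr (Ideal.mem_of_dvd _ (dl_coeff _ _ _ _) hqw)
    have h6 : Ideal.Quotient.mk (w ^ (k g w)) (1 - ε g w w') = 0 :=
      Ideal.Quotient.eq_zero_iff_mem.mpr e3
    have h7 : Ideal.Quotient.mk (w ^ (k g w)) (ε g w w') = 1 := by
      rw [map_sub, map_one, sub_eq_zero] at h6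
      exact h6.symm
    rw [h5, add_zero, pf, Polynomial.map_add, Polynomial.map_mul, Polynomial.map_mul,
      Polynomial.map_C, Polynomial.map_C, h6, h7]
    simp

end Pool.Agent.K4H36.TR
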