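import Mathlib
import Pool.Agent.K4H36.TR.Sch

/-!
# Totally real fields with given completions (elementary form)
-/

set_option autoImplicit false
set_option linter.unusedSectionVars false

namespace Pool.Agent.K4H36.TR

open NumberField Polynomial Pool.Agent.K4H77.SL

lemma exists_min_pow {M : Type} [LinearOrderedCommMonoidWithZero M] (s : Multiset M) (hs : s ≠ 0) :
    ∃ a ∈ s, a ^ s.card ≤ s.prod := by
  induction s using Multiset.induction_on with
  | empty => exact absurd rfl hs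
  | cons a s ih =>
    by_cases h0 : s = 0
    · subst h0
      exact ⟨a, by simp, by simp⟩
    · obtain ⟨b, hb, hbp⟩ := ih h0
      rw [Multiset.card_cons, Multiset.prod_cons]
      rcases le_total a b with h | h
      · refine ⟨a, by simp, ?_⟩
        rw [pow_succ']
        exact mul_le_mul_right ((pow_le_pow_left' h _).trans hbp) a
      · refine ⟨b, by simp [hb], ?_⟩
        rw [pow_succ']
        exact mul_le_mul' h hbp

/-- polynomials over the base which split in a totally real extension -/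
theorem exists_ext_real_base (K : Type) [Field K] [NumberField K] [IsTotallyReal K]
    (A : Set (𝓞 K)[X]) (hA : A.Finite)
    (hm : ∀ f ∈ A, f.Monic) (hr : ∀ f ∈ A, ∀ φ : 𝓞 K →+* ℝ, (f.map φ).Splits) :
    ∃ (N : Type) (_ : Field N) (_ : NumberField N) (_ : Algebra K N) (_ : IsGalois K N)
      (_ : IsTotallyReal N),
      ∀ f ∈ A, ∃ s : Multiset (𝓞 N), f.map (algebraMap (𝓞 K) (𝓞 N))
        = (s.map (fun a => X - C a)).prod := by
  obtain ⟨N, i1, i2, i3, i4, i5, i6, i7, hN⟩ := exists_ext_real K K A hA hm hr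
  have h1 : i3 = i4 := by
    apply Algebra.algebra_ext
    intro x
    exact @IsScalarTower.algebraMap_apply K K N _ _ _ _ i4 i3 i5 x
  subst h1
  exact ⟨N, i1, i2, i3, i6, i7, hN⟩

/-- **Totally real fields with given completions.** -/
theorem exists_real_local (K L : Type) [Field K] [NumberField K] [IsTotallyReal K] [Field L]
    [NumberField L] [Algebra K L] [IsGalois K L] {m : ℕ} (hm : m ≠ 0) :
    ∃ (N : Type) (_ : Field N) (_ : NumberField N) (_ : Algebra K N) (_ : IsGalois K N)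
      (_ : IsTotallyReal N),
      ∀ (M : Type) [Field M] [NumberField M] [Algebra K M] [Algebra L M] [Algebra N M]
        [IsScalarTower K L M] [IsScalarTower K N M] (σ : M ≃ₐ[K] M) (P : Ideal (𝓞 M)),
        P.IsMaximal → (m : 𝓞 M) ∈ P → σ ∈ decomp K P →
        (∀ x : N, σ (algebraMap N M x) = algebraMap N M x) →
        ∀ x : L, σ (algebraMap L M x) = algebraMap L M x := by
  classical
  have hfin : FiniteDimensional K L := Module.Finite.of_restrictScalars_finite ℚ K L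
  have hθ : ∀ g : L ≃ₐ[K] L, ∃ θ : 𝓞 L, g ≠ 1 → gi g θ ≠ θ := by
    intro g
    by_cases hg : g = 1
    · exact ⟨0, fun h => absurd hg h⟩
    · obtain ⟨θ, h⟩ := exists_moved hg
      exact ⟨θ, fun _ => h⟩
  choose θ hθ using hθ
  have hf : ∀ g : L ≃ₐ[K] L, ∃ f : (𝓞 K)[X], f.Monic ∧
      (f.map (algebraMap (𝓞 K) (𝓞 L))).eval (θ g) = 0 := by
    intro g
    have h1 : IsIntegral (𝓞 K) (θ g) := Algebra.IsIntegral.isIntegral _
    obtain ⟨f, hf, hf0⟩ := h1
    exact ⟨f, hf, by rw [eval_map]; exact hf0⟩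
  choose f hf hf0 using hf
  let T : Set (Ideal (𝓞 L)) := {w | w.IsMaximal ∧ (m : 𝓞 L) ∈ w}
  have hT : T.Finite := finite_max L hm
  have hk : ∀ (g : L ≃ₐ[K] L) (w : Ideal (𝓞 L)), ∃ k : ℕ, g ≠ 1 → w.IsMaximal →
      (gi g (θ g) - θ g) ^ (f g).natDegree ∉ w ^ k := by
    intro g w
    by_cases hg : g ≠ 1
    · by_cases hw : w.IsMaximal
      · obtain ⟨k, hk⟩ := exists_power hw (pow_ne_zero (f g).natDegree (sub_ne_zero.mpr (hθ g hg)))
        exact ⟨k, fun _ _ => hk⟩
      · exact ⟨0, fun _ h => absurd h hw⟩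
    · exact ⟨0, fun h => absurd h hg⟩
  choose k hk using hk
  have hN : ∀ (g : L ≃ₐ[K] L) (w : Ideal (𝓞 L)), ∃ N : ℕ, ∀ φ : 𝓞 K →+* ℝ,
      ((f g + dl (𝓞 K) (f g).natDegree (m ^ (k g w)) N).map φ).Splits := by
    intro g w
    exact exists_real_dl (hf g) (q := m ^ (k g w)) (by positivity)
  choose N hN using hN
  let ff : (L ≃ₐ[K] L) → Ideal (𝓞 L) → (𝓞 K)[X] := fun g w =>
    f g + dl (𝓞 K) (f g).natDegree (m ^ (k g w)) (N g w)
  let Z : Set ((L ≃ₐ[K] L) × Ideal (𝓞 L)) := Set.univ ×ˢ T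
  have hZ : Z.Finite := Set.finite_univ.prod hT
  let A : Set (𝓞 K)[X] := (fun z : (L ≃ₐ[K] L) × Ideal (𝓞 L) => ff z.1 z.2) '' Z
  obtain ⟨N₀, i1, i2, i3, i4, i5, hM⟩ := exists_ext_real_base K A (hZ.image _) (by
    rintro f' ⟨z, -, rfl⟩
    exact add_dl_monic (hf z.1) _ _) (by
    rintro f' ⟨z, -, rfl⟩
    exact hN _ _)
  refine ⟨N₀, i1, i2, i3, i4, i5, ?_⟩
  intro M _ _ _ _ _ _ _ σ P hP hmP hσP hfix
  let g : L ≃ₐ[K] L := AlgEquiv.restrictNormalHom L σ
  have hσ : ∀ x : L, σ (algebraMap L M x) = algebraMap L M (g x) := fun x =>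
    (Pool.Agent.K4H74.ST.res_apply σ x).symm
  by_cases hne : g = 1
  · intro x
    rw [hσ, hne]
    rfl
  exfalso
  let φ : 𝓞 L →+* 𝓞 M := algebraMap (𝓞 L) (𝓞 M)
  let ψ : 𝓞 N₀ →+* 𝓞 M := algebraMap (𝓞 N₀) (𝓞 M)
  let w := P.comap φ
  have hw : w.IsMaximal := Ideal.isMaximal_comap_of_isIntegral_of_isMaximal P
  have hmw : (m : 𝓞 L) ∈ w := by
    change φ (m : 𝓞 L) ∈ P
    rw [map_natCast]
    exact hmP
  obtain ⟨s, hs⟩ := hM _ ⟨(g, w), ⟨Set.mem_univ _, hw, hmw⟩, rfl⟩
  have hs : (ff g w).map (algebraMap (𝓞 K) (𝓞 N₀)) = (s.map (fun a => X - C a)).prod := hs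
  have hKLM : φ.comp (algebraMap (𝓞 K) (𝓞 L)) = ψ.comp (algebraMap (𝓞 K) (𝓞 N₀)) := by
    apply RingHom.ext
    intro x
    apply RingOfIntegers.ext
    exact (IsScalarTower.algebraMap_apply K L M (x : K)).symm.trans
      (IsScalarTower.algebraMap_apply K N₀ M (x : K))
  have hev : ((ff g w).map (φ.comp (algebraMap (𝓞 K) (𝓞 L)))).eval (φ (θ g))
      = (s.map (fun a => φ (θ g) - ψ a)).prod := by
    rw [hKLM, ← Polynomial.map_map, hs, Polynomial.map_multiset_prod, Multiset.map_map,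
      eval_multiset_prod, Multiset.map_map]
    congr 1
    refine Multiset.map_congr rfl fun a _ => ?_
    simp
  have hev2 : ((ff g w).map (φ.comp (algebraMap (𝓞 K) (𝓞 L)))).eval (φ (θ g))
      = (dl (𝓞 M) (f g).natDegree (m ^ (k g w)) (N g w)).eval (φ (θ g)) := by
    rw [Polynomial.map_add, dl_map, eval_add, ← Polynomial.map_map, eval_map, Polynomial.eval₂_hom,
      hf0, map_zero, zero_add]
  have hcard : s.card = (f g).natDegree := by
    have h1 := congrArg natDegree hs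
    have h2 : ((ff g w).map (algebraMap (𝓞 K) (𝓞 N₀))).natDegree = (f g).natDegree := by
      rw [(add_dl_monic (hf g) _ _).natDegree_map]
      exact add_dl_deg (hf g) _ _
    rw [h2, natDegree_multiset_prod_X_sub_C_eq_card] at h1
    exact h1.symm
  have hs0 : s ≠ 0 := by
    intro h0
    rw [h0, Multiset.card_zero] at hcard
    have h1 : f g = 1 := (hf g).natDegree_eq_zero.mp hcard.symm
    have h2 := hf0 g
    rw [h1, Polynomial.map_one, eval_one] at h2
    exact one_ne_zero h2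
  let v := (hos P hP).intValuation
  have hvi : ∀ x : 𝓞 M, v (gi σ x) = v x := fun x => val_inv hP hσP x
  obtain ⟨y, hy, hyp⟩ := exists_min_pow (s.map (fun a => v (φ (θ g) - ψ a))) (by
    intro h0
    exact hs0 (Multiset.map_eq_zero.mp h0))
  obtain ⟨a, ha, rfl⟩ := Multiset.mem_map.mp hy
  rw [Multiset.card_map, hcard] at hyp
  have hvp : (s.map (fun a => v (φ (θ g) - ψ a))).prod ≤ v ((m ^ (k g w) : ℕ) : 𝓞 M) := by
    have h1 : (s.map (fun a => v (φ (θ g) - ψ a))).prod
        = v (s.map (fun a => φ (θ g) - ψ a)).prod := by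
      rw [map_multiset_prod, Multiset.map_map]
      rfl
    rw [h1, ← hev, hev2]
    obtain ⟨z, hz⟩ := dl_eval (R := 𝓞 M) (f g).natDegree (m ^ (k g w)) (N g w) (φ (θ g))
    rw [hz, map_mul]
    exact mul_le_of_le_one_right' (IsDedekindDomain.HeightOneSpectrum.intValuation_le_one _ _)
  have hσφ : gi σ (φ (θ g)) = φ (gi g (θ g)) := by
    apply RingOfIntegers.ext
    exact hσ _
  have hσψ : gi σ (ψ a) = ψ a := by
    apply RingOfIntegers.ext
    exact hfix _
  have e3 : v (φ (gi g (θ g) - θ g)) ≤ v (φ (θ g) - ψ a) := by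
    have h1 : φ (gi g (θ g) - θ g) = gi σ (φ (θ g) - ψ a) - (φ (θ g) - ψ a) := by
      rw [map_sub φ, map_sub (gi σ), hσψ, hσφ]; ring
    rw [h1]
    refine (Valuation.map_sub _ _ _).trans (max_le ?_ le_rfl)
    exact (hvi _).le
  have e5 : v (φ ((gi g (θ g) - θ g) ^ (f g).natDegree)) ≤ v (φ ((m ^ (k g w) : ℕ) : 𝓞 L)) := by
    rw [map_pow, map_pow, map_natCast φ]
    exact (pow_le_pow_left' e3 _).trans (hyp.trans hvp)
  let u := hos w hw
  have hlo : (hos P hP).asIdeal.LiesOver u.asIdeal := ⟨by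
    change w = Ideal.under (𝓞 L) P
    rw [Ideal.under_def]⟩
  have h1 := IsDedekindDomain.HeightOneSpectrum.intValuation_liesOver u (hos P hP)
    ((gi g (θ g) - θ g) ^ (f g).natDegree)
  have h2 := IsDedekindDomain.HeightOneSpectrum.intValuation_liesOver u (hos P hP)
    ((m ^ (k g w) : ℕ) : 𝓞 L)
  change _ = v (φ _) at h1
  change _ = v (φ _) at h2
  rw [← h1, ← h2] at e5
  have h3 : u.asIdeal.ramificationIdx' (hos P hP).asIdeal ≠ 0 :=
    Ideal.IsDedekindDomain.ramificationIdx'_ne_zero_of_liesOver _ u.ne_bot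
  have h4 := (pow_le_pow_iff_left₀ zero_le zero_le h3).mp e5
  have h5 : u.intValuation ((m ^ (k g w) : ℕ) : 𝓞 L) ≤ WithZero.exp (-(k g w : ℤ)) :=
    (u.intValuation_le_pow_iff_mem _ _).mpr (by
      rw [Nat.cast_pow]
      exact Ideal.pow_mem_pow hmw _)
  exact hk g w hne hw ((u.intValuation_le_pow_iff_mem _ _).mp (h4.trans h5))

end Pool.Agent.K4H36.TR
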