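import Mathlib
import Pool.Agent.K4H34.ST.Spec
import Pool.Agent.K4H36.TR.Loc

/-!
# The pieces A and R2 of the reduction of Stark's conjecture to Hilbert class fields
-/

set_option autoImplicit false
set_option linter.unusedSectionVars false

namespace Pool.Agent.K4H36.TR

open NumberField Polynomial Pool.Agent.K4H77.SL Pool.Agent.K4H34.ST

theorem stA : StA := by
  intro L _ _ _ s hs
  obtain ⟨N, i1, i2, i3, i4, i5, h⟩ := exists_real_local ℚ L hs
  have h0 : i3 = DivisionRing.toRatAlgebra := Subsingleton.elim _ _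
  subst h0
  refine ⟨N, i1, i2, i4, i5, ?_⟩
  intro M _ _ _ _ σ Q hQ hsQ hσ hfix
  exact h M σ Q hQ hsQ hσ hfix

theorem stR2 : StR2 := by
  intro L _ _ _ hL t ht
  obtain ⟨N, i1, i2, i3, i4, i5, i6, i7, h⟩ := exists_schmidt_real ℚ L ht
  have h0 : i3 = DivisionRing.toRatAlgebra := Subsingleton.elim _ _
  subst h0
  exact ⟨N, i1, i2, i4, i6, i7, h⟩

end Pool.Agent.K4H36.TR
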