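import Mathlib
import Pool.Agent.K4H36.ST.Pre
import Pool.Agent.K4H36.TR.Ext

/-!
# The polynomial attached to a set of conjugates at one prime: the totally real version
-/

set_option autoImplicit false
set_option linter.unusedSectionVars false

namespace Pool.Agent.K4H36.TR.M

open NumberField Pool.Agent.K4H36.ST Pool.Agent.K4H36.TR
open scoped Pointwise
open MulAction Polynomial

/-- a natural number divisible by a given nonzero element -/
lemma exists_nat_dvd {N : Type} [Field N] [NumberField N] {x : 𝓞 N} (hx : x ≠ 0) :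
    ∃ q : ℕ, 0 < q ∧ x ∣ (q : 𝓞 N) := by
  refine ⟨Ideal.absNorm (Ideal.span {x}), ?_, Ideal.mem_span_singleton.mp (Ideal.absNorm_mem _)⟩
  rw [Nat.pos_iff_ne_zero, Ne, Ideal.absNorm_eq_zero_iff, Ideal.span_singleton_eq_bot]
  exact hx

variable {K L N : Type} [Field K] [NumberField K] [Field L] [NumberField L] [Algebra K L]
  [IsGalois K L] [Field N] [NumberField N] [Algebra K N]
  [IsGalois K N] [Algebra L N] [IsScalarTower K L N]

/-- the polynomial attached to a set of conjugates at one prime, with only real roots at all the real embeddings -/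
lemma exists_hYR {ι : Type} [Finite ι] [DecidableEq ι] (w : ι → Ideal (𝓞 N))
    (hw : ∀ i, (w i).IsPrime) (hw0 : ∀ i, w i ≠ ⊥)
    (hne : ∀ i j, i ≠ j → ∀ g : N ≃ₐ[K] N, g • w j ≠ w i) (i : ι) (Y : Finset (𝓞 N))
    (hY : ∀ g : N ≃ₐ[K] N, g • w i = w i → ∀ x ∈ Y, g • x ∈ Y)
    (hn : Nat.card (L ≃ₐ[K] L) ∣ Y.card) :
    ∃ (h : (𝓞 N)[X]) (c : 𝓞 N) (Z : Finset (𝓞 N)), h.Monic ∧ h.natDegree = Y.card ∧
      (∀ (g : N ≃ₐ[K] N) (k : ℕ), g • h.coeff k = h.coeff k) ∧ c ≠ 0 ∧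
      (∀ g : N ≃ₐ[K] N, g • c = c) ∧ Z.card = Y.card ∧ (∀ g : N ≃ₐ[K] N, ∀ z ∈ Z, g • z ∈ Z) ∧
      (∀ z ∈ Z, ∀ g : N ≃ₐ[K] N, g • z = z ↔ rs K L N g = 1) ∧
      (∀ j, ∀ x ∈ (if j = i then Y else Z), ∀ y ∈ (if j = i then Y else Z), x ≠ y →
        ∃ b ∈ w j, c = (x - y) * b) ∧
      (∀ j, PolCong (w j) (c ^ Y.card) h (pol (if j = i then Y else Z))) ∧
      ∀ φ : 𝓞 N →+* ℝ, (h.map φ).Splits := by
  obtain ⟨h, c, Z, hm, hdeg, hinv, hc, hcG, hZ1, hZ2, hZ3, hsep, hcong⟩ :=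
    exists_hY (L := L) w hw hw0 hne i Y hY hn
  obtain ⟨q, hq, hcq⟩ := exists_nat_dvd (pow_ne_zero Y.card hc)
  obtain ⟨T, hT⟩ := exists_real_dl hm hq
  refine ⟨h + dl (𝓞 N) h.natDegree q T, c, Z, add_dl_monic hm q T, (add_dl_deg hm q T).trans hdeg, ?_,
    hc, hcG, hZ1, hZ2, hZ3, hsep, ?_, hT⟩
  · intro g k
    have h1 := congrArg (fun p : (𝓞 N)[X] => p.coeff k)
      (dl_map (MulSemiringAction.toRingHom (N ≃ₐ[K] N) (𝓞 N) g) h.natDegree q T)
    simp only [coeff_map] at h1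
    have h2 : g • (dl (𝓞 N) h.natDegree q T).coeff k = (dl (𝓞 N) h.natDegree q T).coeff k := h1
    rw [coeff_add, smul_add, hinv, h2]
  · intro j
    obtain ⟨s, hs, hs2⟩ := hcong j
    refine ⟨s, hs, ?_⟩
    have h1 : C s * (h + dl (𝓞 N) h.natDegree q T - pol (if j = i then Y else Z)) =
        C s * (h - pol (if j = i then Y else Z)) + C s * dl (𝓞 N) h.natDegree q T := by ring
    rw [h1]
    refine dvd_add hs2 (Dvd.dvd.mul_left ?_ _)
    rw [C_dvd_iff_dvd_coeff]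
    exact fun k => hcq.trans (dl_coeff _ _ _ k)

end Pool.Agent.K4H36.TR.M
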