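import Mathlib
import Pool.Agent.K4H36.TR.MachLoc
import Pool.Agent.K4H36.TR.MachPol

/-!
# Cyclic subgroups, and the induction, with totally real fields
-/

set_option autoImplicit false
set_option linter.unusedSectionVars false

namespace Pool.Agent.K4H36.TR.M

open NumberField Pool.Agent.R389 Pool.Agent.K4H74.ST Pool.Agent.K4H77.SL Pool.Agent.K4H36.ST
open Pool.Agent.K4H36.BK Pool.Agent.K4H36.TR
open scoped Pointwise
open MulAction Polynomial

variable {K₀ L₀ : Type} [Field K₀] [Field L₀] [Algebra K₀ L₀] {M : Type} [AddCommGroup M]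
  {B : BInv K₀ M} {m₀ : ℕ}

variable {K L N : Type} [Field K] [NumberField K] [Field L] [NumberField L] [Algebra K L]
  [IsGalois K L] [Field N] [NumberField N] [Algebra K N] [IsGalois K N] [Algebra L N]
  [IsScalarTower K L N]

theorem main_cyc' [IsTotallyReal N] (hB : VanR B L₀ m₀)
    (htf : ∀ (x : M) (n : ℕ), n ≠ 0 → n • x = 0 → x = 0)
    (hS : SmallR B L₀ (Nat.card (L ≃ₐ[K] L))) (hn1 : Nat.card (L ≃ₐ[K] L) ≠ 1)
    {i₀ : K₀ →+* K} {j₀ : L₀ →+* L} (hcmp : Cmp K₀ L₀ K L i₀ j₀) {t : ℕ}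
    (ht : t ≠ 0) (hsp : ∀ P : Ideal (𝓞 L), Special K m₀ P → (t : 𝓞 L) ∈ P)
    (hBig : Big K N (Nat.card (L ≃ₐ[K] L)) t) (b : N ≃ₐ[K] N) :
    one (Subgroup.zpowers b) ∈ B.T K N i₀ := by
  classical
  have hfin : FiniteDimensional K N := Module.Finite.of_restrictScalars_finite ℚ K N
  have hfinL : FiniteDimensional K L := Module.Finite.of_restrictScalars_finite ℚ K L
  obtain ⟨x₀, hx₀⟩ := exists_stab (K := K) (N := N) (Subgroup.zpowers b)
  let G := N ≃ₐ[K] N
  let X₀ : Finset (𝓞 N) := orb G x₀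
  -- the primes
  let ι := PT K t
  have hι : Finite ι := finite_PT K ht
  have hιF : Fintype ι := Fintype.ofFinite ι
  have hex : ∀ j : ι, ∃ Q : Ideal (𝓞 N), Q.IsPrime ∧ dn K Q = j.1 := fun j =>
    exists_over K N j.1 (isMaximal_of ht j.2.1 j.2.2)
  choose w hw hwK using hex
  have hwt : ∀ j, (t : 𝓞 N) ∈ w j := by
    intro j
    have h1 : (t : 𝓞 K) ∈ dn K (w j) := by rw [hwK]; exact j.2.2
    rwa [Ideal.mem_comap, map_natCast] at h1
  have hw0 : ∀ j, w j ≠ ⊥ := fun j => ne_bot_of ht (hwt j)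
  have hne : ∀ i j, i ≠ j → ∀ g : G, g • w j ≠ w i := by
    intro i j hij g h
    apply hij
    apply Subtype.ext
    rw [← hwK, ← hwK, ← h, dn_base]
  let D : ι → Subgroup G := fun j => stabilizer G (w j)
  -- the orbits of the elements fixed by full elements of the decomposition groups
  let fo : ι → Finset (Finset (𝓞 N)) := fun j => (orbs (D j) X₀).filter (fun Y =>
    ∃ y ∈ Y, ∃ s : G, s • w j = w j ∧ s • y = y ∧ Subgroup.zpowers (rs K L N s) = ⊤)
  let κ := Σ j : ι, {Y // Y ∈ fo j}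
  let hκF : Fintype κ := inferInstanceAs (Fintype (Σ j : ι, {Y // Y ∈ fo j}))
  have hYs : ∀ k : κ, ∀ g : G, g • w k.1 = w k.1 → ∀ x ∈ k.2.1, g • x ∈ k.2.1 := by
    rintro ⟨j, Y, hY⟩ g hg x hx
    obtain ⟨y, -, rfl⟩ := Finset.mem_image.mp (Finset.mem_filter.mp hY).1
    exact smul_mem_orb (⟨g, hg⟩ : D j) hx
  have hYt : ∀ k : κ, ∀ y ∈ k.2.1, ∀ y' ∈ k.2.1, ∃ δ : G, δ • w k.1 = w k.1 ∧ δ • y = y' := by
    rintro ⟨j, Y, hY⟩ y hy y' hy'
    obtain ⟨y₀, -, rfl⟩ := Finset.mem_image.mp (Finset.mem_filter.mp hY).1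
    change y ∈ orb (D j) y₀ at hy
    change y' ∈ orb (D j) y₀ at hy'
    rw [← orb_eq hy] at hy'
    obtain ⟨δ, hδ⟩ := mem_orb.mp hy'
    exact ⟨δ, δ.2, hδ⟩
  have hYf : ∀ k : κ, ∀ y ∈ k.2.1, ∃ s : G, s • w k.1 = w k.1 ∧ s • y = y ∧
      Subgroup.zpowers (rs K L N s) = ⊤ := by
    intro k y hy
    obtain ⟨y₀, hy₀, s, hs, hsy, hsf⟩ := (Finset.mem_filter.mp k.2.2).2
    obtain ⟨δ, hδ, hδy⟩ := hYt k y₀ hy₀ y hy
    refine ⟨δ * s * δ⁻¹, ?_, ?_, ?_⟩
    · have h1 : δ⁻¹ • w k.1 = w k.1 := inv_smul_eq_iff.mpr hδ.symm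
      rw [mul_smul, mul_smul, h1, hs, hδ]
    · rw [← hδy, mul_smul, mul_smul, inv_smul_smul, hsy]
    · rw [map_mul, map_mul, map_inv]
      exact zpowers_conj_top hsf
  have hYn : ∀ k : κ, Nat.card (L ≃ₐ[K] L) ∣ k.2.1.card := by
    rintro ⟨j, Y, hY⟩
    obtain ⟨y, hy, rfl⟩ := Finset.mem_image.mp (Finset.mem_filter.mp hY).1
    exact dvd_orb_card (D := D j) (fun x hx => hBig (w j) (hw j) (hwt j) x hx) hx₀ hy
  have hpol := fun k : κ => exists_hYR (L := L) w hw hw0 hne k.1 k.2.1 (hYs k) (hYn k)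
  choose h c Z hmon hdeg hinv hc hcG hZc hZ hZ2 hsep hcong hreal using hpol
  -- the extension
  obtain ⟨N₁, i1, i2, i3, i4, i5, i6, i7, hN⟩ := exists_ext_real K N (Set.range h)
    (Set.finite_range h) (by
      rintro _ ⟨z, rfl⟩
      exact hmon z) (by
      rintro _ ⟨z, rfl⟩
      exact hreal z)
  have hfin1 : FiniteDimensional K N₁ := Module.Finite.of_restrictScalars_finite ℚ K N₁
  let G₁ := N₁ ≃ₐ[K] N₁
  let iLN : L →+* N₁ := (algebraMap N N₁).comp (algebraMap L N)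
  let _ : Algebra L N₁ := iLN.toAlgebra
  have hLN : ∀ x, algebraMap L N₁ x = algebraMap N N₁ (algebraMap L N x) := fun x => rfl
  have hKLN : IsScalarTower K L N₁ := by
    refine IsScalarTower.of_algebraMap_eq fun x => ?_
    rw [hLN, ← IsScalarTower.algebraMap_apply K L N, ← IsScalarTower.algebraMap_apply K N N₁]
  have hres : ∀ g : G₁, rs K L N (rs K N N₁ g) = rs K L N₁ g := by
    intro g
    ext x
    apply (algebraMap L N₁).injective
    rw [rs_apply, hLN, hLN]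
    have h1 := rs_apply (K := K) (N := L) (N₁ := N) (rs K N N₁ g) x
    rw [h1, rs_apply]
  have hroots : ∀ k : κ, ∃ m : Multiset (𝓞 N₁), (h k).map (algebraMap (𝓞 N) (𝓞 N₁))
      = (m.map (fun t => Polynomial.X - C t)).prod := by
    intro k
    exact hN _ ⟨k, rfl⟩
  choose m hm using hroots
  let X : κ → ι → Finset (𝓞 N) := fun k j => if j = k.1 then k.2.1 else Z k
  have hXc : ∀ k j, (X k j).card = k.2.1.card := by
    intro k j
    by_cases hj : j = k.1
    · simp only [X, if_pos hj]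
    · simp only [X, if_neg hj]
      exact hZc k
  have hmc : ∀ k, Multiset.card (m k) = k.2.1.card := by
    intro k
    have := congrArg natDegree (hm k)
    rw [natDegree_map_eq_of_injective algMap_inj, hdeg,
      natDegree_multiset_prod_X_sub_C_eq_card] at this
    exact this.symm
  have hnear : ∀ (k : κ) (j : ι) (Q : Ideal (𝓞 N₁)), Q.IsPrime → (t : 𝓞 N₁) ∈ Q → dn N Q = w j →
      Near Q (algebraMap (𝓞 N) (𝓞 N₁) (c k)) (m k) ((X k j).image (algebraMap (𝓞 N) (𝓞 N₁))) := by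
    intro k j Q hQ htQ hQw
    exact near_of_cong (S := 𝓞 N₁) algMap_inj Q (ne_bot_of ht htQ) (w j) hQw (X k j) (c k) (hc k)
      (hsep k j) (h k) (by rw [hXc]; exact hcong k j) (m k) (hm k) (by rw [hmc, hXc])
  have hms : ∀ (k : κ) (g : G₁), ∀ x ∈ m k, g • x ∈ m k := fun k g x hx =>
    root_smul g (h k) (hinv k _) (m k) (hm k) hx
  let R : κ → Finset (𝓞 N₁) := fun k => (m k).toFinset
  have hRs : ∀ (k : κ) (g : G₁), ∀ x ∈ R k, g • x ∈ R k := by
    intro k g x hx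
    rw [Multiset.mem_toFinset] at hx ⊢
    exact hms k g x hx
  have htg : ∀ (g : G₁) (Q : Ideal (𝓞 N₁)), (t : 𝓞 N₁) ∈ Q → (t : 𝓞 N₁) ∈ g • Q := by
    intro g Q h
    rw [Ideal.mem_pointwise_smul_iff_inv_smul_mem]
    have h1 : g⁻¹ • (t : 𝓞 N₁) = (t : 𝓞 N₁) :=
      map_natCast (MulSemiringAction.toRingHom (N₁ ≃ₐ[K] N₁) (𝓞 N₁) g⁻¹) t
    rw [h1]
    exact h
  have hconj : ∀ Q : Ideal (𝓞 N₁), Q.IsPrime → (t : 𝓞 N₁) ∈ Q →
      ∃ (j : ι) (g : G₁), dn N (g • Q) = w j := by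
    intro Q hQ htQ
    have hp1 : (dn N Q).IsPrime := Ideal.IsPrime.comap _
    have hp2 : (dn K (dn N Q)).IsPrime := Ideal.IsPrime.comap _
    have ht1 : (t : 𝓞 K) ∈ dn K (dn N Q) := by
      rw [Ideal.mem_comap, Ideal.mem_comap, map_natCast, map_natCast]
      exact htQ
    let j : ι := ⟨dn K (dn N Q), hp2, ht1⟩
    obtain ⟨g₀, hg₀⟩ := exists_conj_of (K := K) (dn N Q) (w j) hp1 (hw j) (hwK j).symm
    obtain ⟨g, hg⟩ := rs_surjective (K := K) (N := N) (N₁ := N₁) g₀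
    exact ⟨j, g, by rw [dn_smul, hg, hg₀]⟩
  -- the character
  let lam : G₁ → ℂ := fun _ => 1
  have hlam : ∀ g x, lam (x * g * x⁻¹) = lam g := fun g x => rfl
  -- the pieces
  have hpiece : ∀ k : κ, (fun g => lam g * cnt (R k) g) ∈ B.T K N₁ i₀ := by
    intro k
    refine mul_cnt_mem hlam _ (R k) (hRs k) fun ρ hρ => ?_
    obtain ⟨Q₀, hQ₀, hQf, hQ₁⟩ := one_prime hres ht w hconj k.1 k.2.1 (Z k) (hYs k) (hYt k) (hYf k)
      (hZ k) (hZ2 k) (c k) (hcG k) (m k) (hms k) (hnear k) (Multiset.mem_toFinset.mp hρ)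
    have hcyc : IsCyclic (L ≃ₐ[K] L) := by
      obtain ⟨y, hy, s, -, -, hsf⟩ := (Finset.mem_filter.mp k.2.2).2
      exact ⟨rs K L N s, fun y => by
        have h : y ∈ Subgroup.zpowers (rs K L N s) := by
          rw [hsf]
          exact Subgroup.mem_top _
        exact h⟩
    refine B.mem_one i₀ (v_one hB hcmp hcyc (stabilizer G₁ ρ) Q₀ hQ₀ hQf
      (fun u hu Q hQ huQ hs => ?_))
    refine hQ₁ u hu Q hQ.isPrime ?_ huQ
    have h1 := hsp _ hs
    rw [Ideal.mem_comap, map_natCast] at h1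
    exact h1
  let φ : G₁ → ℂ := (fun g => cnt X₀ (rs K N N₁ g)) - ∑ k : κ, cnt (R k)
  have hφ : φ ∈ PP G₁ := by
    refine sub_mem (PP_comp (rs K N N₁) (cnt_mem_PP X₀ (fun g x hx => smul_mem_orb g hx)))
      (sum_mem fun k _ => cnt_mem_PP (R k) (hRs k))
  -- the values on the decomposition groups
  have hval : ∀ (j : ι) (Q : Ideal (𝓞 N₁)), Q.IsPrime → (t : 𝓞 N₁) ∈ Q → dn N Q = w j →
      ∀ s : G₁, s • Q = Q → Subgroup.zpowers (rs K L N₁ s) = ⊤ → φ s = 0 := by
    intro j Q hQ htQ hQw s hs hsf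
    have hs1 : rs K L N₁ s ≠ 1 := by
      intro h1
      rw [h1, Subgroup.zpowers_one_eq_bot] at hsf
      apply hn1
      rw [← Subgroup.card_top (G := L ≃ₐ[K] L), ← hsf, Subgroup.card_bot]
    have hsw : rs K N N₁ s • w j = w j := by rw [← hQw, ← dn_smul, hs]
    have hcs : ∀ k : κ, cnt (R k) s = cnt (X k j) (rs K N N₁ s) := by
      intro k
      have h1 := (hnear k j Q hQ htQ hQw).cnt_eq s hs (by rw [← rs_smul, hcG]) (hms k s) (by
        intro x hx
        obtain ⟨z, hz, rfl⟩ := Finset.mem_image.mp hx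
        rw [← rs_smul]
        apply Finset.mem_image_of_mem
        by_cases hj : j = k.1
        · simp only [X, if_pos hj] at hz ⊢
          exact hYs k _ (by rw [← hj]; exact hsw) z hz
        · simp only [X, if_neg hj] at hz ⊢
          exact hZ k _ z hz)
      change cnt (m k).toFinset s = _
      rw [h1, cnt_image]
    have h2 : ∑ k : κ, cnt (R k) s = cnt X₀ (rs K N N₁ s) := by
      rw [Finset.sum_congr rfl (fun k _ => hcs k)]
      have h3 : ∑ k : κ, cnt (X k j) (rs K N N₁ s)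
          = ∑ i : ι, ∑ Y : {Y // Y ∈ fo i}, cnt (X ⟨i, Y⟩ j) (rs K N N₁ s) :=
        Fintype.sum_sigma _
      rw [h3, ← Finset.add_sum_erase _ _ (Finset.mem_univ j)]
      have h5 : ∑ i ∈ Finset.univ.erase j, ∑ Y : {Y // Y ∈ fo i},
          cnt (X ⟨i, Y⟩ j) (rs K N N₁ s) = 0 := by
        refine Finset.sum_eq_zero fun i hi => Finset.sum_eq_zero fun Y _ => ?_
        have hij : j ≠ i := (Finset.ne_of_mem_erase hi).symm
        simp only [X, if_neg hij]
        rw [cnt_Z (hZ2 ⟨i, Y⟩), hres, if_neg hs1]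
      rw [h5, add_zero]
      have h4 : ∀ Y : {Y // Y ∈ fo j}, cnt (X ⟨j, Y⟩ j) (rs K N N₁ s)
          = cnt Y.1 (rs K N N₁ s) := by
        intro Y
        simp only [X, if_true]
      rw [Finset.sum_congr rfl (fun Y _ => h4 Y)]
      rw [← sum_orbs (D j) X₀ (fun g _ x hx => smul_mem_orb g hx) (rs K N N₁ s)]
      rw [Finset.sum_coe_sort (fo j) (fun Y => cnt Y (rs K N N₁ s))]
      refine Finset.sum_subset (Finset.filter_subset _ _) fun Y hY hY' => ?_
      unfold cnt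
      rw [Nat.cast_eq_zero, Finset.card_eq_zero, Finset.filter_eq_empty_iff]
      intro y hy hsy
      exact hY' (Finset.mem_filter.mpr ⟨hY, y, hy, rs K N N₁ s, hsw, hsy, by rw [hres]; exact hsf⟩)
    change cnt X₀ (rs K N N₁ s) - (∑ k : κ, cnt (R k)) s = _
    rw [Finset.sum_apply, h2, sub_self]
  have hmain : φ ∈ B.T K N₁ i₀ := by
    refine loc_c hB htf hS hcmp ht hsp φ hφ ?_
    intro Q hQ htQ s hs hsf
    obtain ⟨j, g, hg⟩ := hconj Q hQ htQ
    have hp : (g • Q).IsPrime := Ideal.IsPrime.smul g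
    have h1 := hval j (g • Q) hp (htg g Q htQ) hg (g * s * g⁻¹) (by
      rw [mul_smul, mul_smul, inv_smul_smul, hs]) (by
      rw [map_mul, map_mul, map_inv]
      exact zpowers_conj_top hsf)
    rwa [PP.conj hφ] at h1
  -- conclusion
  have hX : (fun g => cnt X₀ (rs K N N₁ g)) ∈ B.T K N₁ i₀ := by
    have h1 := add_mem hmain (sum_mem fun k (_ : k ∈ Finset.univ) => hpiece k)
    convert h1 using 1
    funext g
    simp only [Pi.add_apply, Finset.sum_apply]
    change cnt X₀ (rs K N N₁ g) = (cnt X₀ (rs K N N₁ g) - (∑ k : κ, cnt (R k)) g)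
      + ∑ k : κ, 1 * cnt (R k) g
    rw [Finset.sum_apply]
    simp only [one_mul]
    ring
  have hind := ind_orb (f := fun _ : G => (1 : ℂ)) (fun g x => rfl)
    x₀ (Subgroup.zpowers b) hx₀
  have hind' : cnt X₀ = one (Subgroup.zpowers b) := by
    refine Eq.trans ?_ hind
    funext g
    exact (one_mul _).symm
  rw [← hind']
  have h0 : chH K N (Finsupp.single (Subgroup.zpowers b) 1) = cnt X₀ := by
    rw [chH_single, one_smul, hind']
  rw [← h0]
  refine B.of_infl i₀ (N₁ := N₁) ?_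
  rw [h0]
  exact hX


/-- the big totally real extensions -/
def StmBig : Prop := ∀ (K L : Type) [Field K] [NumberField K] [Field L] [NumberField L]
  [Algebra K L] [IsGalois K L] [IsTotallyReal L] (n t : ℕ) (_ : n ≠ 0) (_ : t ≠ 0),
  ∃ (N : Type) (_ : Field N) (_ : NumberField N) (_ : Algebra K N) (_ : Algebra L N)
    (_ : IsScalarTower K L N) (_ : IsGalois K N) (_ : IsTotallyReal N), Big K N n t

/-- the induction step -/
theorem val_step' {m : ℕ} (hm : m ≠ 0) (hB : VanR B L₀ m)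
    (htf : ∀ (x : M) (n : ℕ), n ≠ 0 → n • x = 0 → x = 0)
    (hbig : StmBig)
    (K L : Type) [Field K] [NumberField K] [Field L] [NumberField L] [Algebra K L] [IsGalois K L]
    [IsTotallyReal L]
    (hS : SmallR B L₀ (Nat.card (L ≃ₐ[K] L))) {i : K₀ →+* K} {j : L₀ →+* L}
    (hc : Cmp K₀ L₀ K L i j) : B.val K i = 0 := by
  classical
  have hfinL : FiniteDimensional K L := Module.Finite.of_restrictScalars_finite ℚ K L
  by_cases hn1 : Nat.card (L ≃ₐ[K] L) = 1
  · have h1 : Subsingleton (L ≃ₐ[K] L) := (Nat.card_eq_one_iff_unique.mp hn1).1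
    refine hB K L i j hc inferInstance ⊥ (fun P _ _ g _ => Subsingleton.elim g 1)
      (fun P _ _ _ g _ => Subsingleton.elim g 1) (fun P _ _ g => ?_)
    rw [Subsingleton.elim g 1]
    intro x
    rw [gi_one]
  obtain ⟨m₁, hm₁, hram⟩ := exists_ram K L
  have ht : m * m₁ ≠ 0 := mul_ne_zero hm hm₁
  have hsp : ∀ P : Ideal (𝓞 L), Special K m P → ((m * m₁ : ℕ) : 𝓞 L) ∈ P := by
    intro P hP
    rw [Nat.cast_mul]
    rcases hP with h | h
    · exact P.mul_mem_right _ h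
    · exact P.mul_mem_left _ (hram P h)
  obtain ⟨N, i1, i2, i3, i4, i5, i6, i7, hBig⟩ := hbig K L (Nat.card (L ≃ₐ[K] L)) (m * m₁)
    Nat.card_pos.ne' ht
  have hfin : FiniteDimensional K N := Module.Finite.of_restrictScalars_finite ℚ K N
  let f : (N ≃ₐ[K] N) → ℂ := fun _ => 1
  have hf : ∀ g x, f (x * g * x⁻¹) = f g := fun g x => rfl
  have hEE : ∀ c : N ≃ₐ[K] N, EE f (Subgroup.zpowers c) ∈ B.T K N i := by
    intro c
    refine EE_mem hf _ _ fun C hC => ?_
    have hCc : IsCyclic C := by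
      have h1 : IsCyclic (Subgroup.zpowers c) := inferInstance
      exact isCyclic_of_injective (Subgroup.inclusion hC) (Subgroup.inclusion_injective hC)
    obtain ⟨⟨b, hb⟩, hgen⟩ := hCc.exists_generator
    have hCb : C = Subgroup.zpowers b := by
      apply le_antisymm
      · intro y hy
        obtain ⟨k, hk⟩ := hgen ⟨y, hy⟩
        exact ⟨k, congrArg Subtype.val hk⟩
      · rw [Subgroup.zpowers_le]
        exact hb
    subst hCb
    exact main_cyc' hB htf hS hn1 hc ht hsp hBig b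
  have h1 := artin hf _ hEE
  have h2 : chH K N (Finsupp.single ⊤ 1) = f := by
    rw [chH_single, one_smul]
    funext g
    have : Fintype (N ≃ₐ[K] N) := Fintype.ofFinite _
    change ind ⊤ (fun _ => (1 : ℂ)) g = 1
    rw [ind_eq, Subgroup.card_top]
    have h3 : ∀ x : N ≃ₐ[K] N, ext (⊤ : Subgroup (N ≃ₐ[K] N)) (fun _ => (1 : ℂ)) (x⁻¹ * g * x)
        = 1 := by
      intro x
      rw [ext_mem _ _ (Subgroup.mem_top _)]
    rw [Finset.sum_congr rfl (fun x _ => h3 x), Finset.sum_const, Finset.card_univ, nsmul_eq_mul,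
      Nat.card_eq_fintype_card, mul_one, inv_mul_cancel₀]
    exact_mod_cast Fintype.card_ne_zero
  rw [← h2] at h1
  have h3 := B.of_nsmul i htf Nat.card_pos.ne' h1
  have h4 := B.zero_of i h3
  rw [B.vH_single, one_smul, B.v_top] at h4
  exact h4

/-- **The reduction.** -/
theorem small_all' {m : ℕ} (hm : m ≠ 0) (hB : VanR B L₀ m)
    (htf : ∀ (x : M) (n : ℕ), n ≠ 0 → n • x = 0 → x = 0) (hbig : StmBig) (n : ℕ) : SmallR B L₀ n := by
  induction n with
  | zero =>
    intro K L _ _ _ _ _ _ _ i j _ h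
    exact absurd h (Nat.not_lt_zero _)
  | succ n ih =>
    intro K L _ _ _ _ _ _ _ i j hc h
    rcases Nat.lt_or_ge (Nat.card (L ≃ₐ[K] L)) n with h1 | h1
    · exact ih K L i j hc h1
    · have h2 : Nat.card (L ≃ₐ[K] L) = n := by omega
      exact val_step' hm hB htf hbig K L (by rw [h2]; exact ih) hc

theorem val_zero_real' {m : ℕ} (hm : m ≠ 0) (hB : VanR B L₀ m)
    (htf : ∀ (x : M) (n : ℕ), n ≠ 0 → n • x = 0 → x = 0) (hbig : StmBig)
    (K L : Type) [Field K] [NumberField K] [Field L] [NumberField L] [Algebra K L] [IsGalois K L]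
    [IsTotallyReal L]
    {i : K₀ →+* K} {j : L₀ →+* L} (hc : Cmp K₀ L₀ K L i j) : B.val K i = 0 :=
  small_all' hm hB htf hbig _ K L i j hc (Nat.lt_succ_self _)

end Pool.Agent.K4H36.TR.M
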